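import Pool.Agent.Helper60.PlzA.Goals

/-!
# Project PLA (MP_8e7d5e_co): packet EQUI
-/

set_option autoImplicit false

namespace Pool.Agent.Helper59.PlzA

open Finset Pool.Agent.Helper60.PlzA

open scoped Classical

theorem sum_cons {S : Type} [Fintype S] {n : ℕ} (F : (Fin (n + 1) → S) → ℝ) :
    ∑ ι, F ι = ∑ a, ∑ ι' : Fin n → S, F (Fin.cons a ι') := by
  rw [← (Fin.consEquiv (fun _ : Fin (n + 1) => S)).sum_comp, Fintype.sum_prod_type]
  rfl

theorem sum_six {S : Type} [Fintype S] (F : (Fin 6 → S) → ℝ) :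
    ∑ ι, F ι = ∑ a, ∑ b, ∑ c, ∑ d, ∑ x, ∑ y, F ![a, b, c, d, x, y] := by
  rw [sum_cons]
  refine sum_congr rfl fun a _ => ?_
  rw [sum_cons]
  refine sum_congr rfl fun b _ => ?_
  rw [sum_cons]
  refine sum_congr rfl fun c _ => ?_
  rw [sum_cons]
  refine sum_congr rfl fun d _ => ?_
  rw [sum_cons]
  refine sum_congr rfl fun x _ => ?_
  rw [sum_cons]
  refine sum_congr rfl fun y _ => ?_
  rw [Fintype.sum_unique]
  congr 1

theorem inner {S : Type} [Fintype S] (r : S → S → Prop) (a : S) :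
    ∑ b, ∑ c, ∑ d, ∑ x, ∑ y, Psi r ![a, b, c, d, x, y] =
      1 / 4 * (Fintype.card S : ℝ) ^ 5 - (∑ b, Ind r a b) * (Fintype.card S : ℝ) ^ 4
        - 1 / 4 * (∑ b, Ind r a b) ^ 3 * (Fintype.card S : ℝ) ^ 2
        + (∑ b, Ind r a b) ^ 3 * (∑ x, ∑ y, Ind r x y)
        + (∑ b, Ind r a b) ^ 2 * (Fintype.card S : ℝ) ^ 3 - (∑ b, Ind r a b) ^ 5 := by
  have h : ∀ b c d x y, Psi r ![a, b, c, d, x, y] = 1 / 4 - Ind r a b - 1 / 4 * (Ind r a b * Ind r a c * Ind r a d) +
      Ind r x y * (Ind r a b * Ind r a c * Ind r a d) + Ind r a b * Ind r a c -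
      Ind r a b * Ind r a c * Ind r a d * Ind r a x * Ind r a y := fun b c d x y => rfl
  simp only [h, sum_add_distrib, sum_sub_distrib, sum_const, card_univ, nsmul_eq_mul, ← mul_sum, ← sum_mul]
  ring

theorem equi (h1 : S_STAR) : S_EQUI := by
  intro L e hL he
  obtain ⟨s, hs⟩ : ∃ s : Setoid (Fin L), s = ⟨e, he⟩ := ⟨_, rfl⟩
  have : Fintype (Quotient s) := Fintype.ofFinite _
  obtain ⟨N, hN⟩ : ∃ N : Quotient s → ℝ, N = fun q => ∑ b, if Quotient.mk s b = q then 1 else 0 := ⟨_, rfl⟩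
  have hN0 : ∀ q, 0 ≤ N q := fun q => by
    rw [hN]; exact sum_nonneg fun b _ => by split_ifs <;> norm_num
  have hc : ∀ a, ∑ b, Ind e a b = N (Quotient.mk s a) := by
    intro a
    rw [hN]
    refine sum_congr rfl fun b _ => ?_
    have : e a b ↔ Quotient.mk s b = Quotient.mk s a := by
      rw [Quotient.eq, hs]
      exact ⟨fun h => he.symm h, fun h => he.symm h⟩
    unfold Ind
    by_cases h : e a b
    · rw [if_pos h, if_pos (this.mp h)]
    · rw [if_neg h, if_neg (fun h' => h (this.mpr h'))]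
  have hP : ∀ j : ℕ, ∑ a, (∑ b, Ind e a b) ^ j = ∑ q, N q ^ (j + 1) := by
    intro j
    calc ∑ a, (∑ b, Ind e a b) ^ j = ∑ a, N (Quotient.mk s a) ^ j := sum_congr rfl fun a _ => by rw [hc]
      _ = ∑ a, ∑ q, (if Quotient.mk s a = q then (1 : ℝ) else 0) * N q ^ j := by
          refine sum_congr rfl fun a _ => ?_
          simp
      _ = ∑ q, ∑ a, (if Quotient.mk s a = q then (1 : ℝ) else 0) * N q ^ j := sum_comm
      _ = ∑ q, N q ^ (j + 1) := by
          refine sum_congr rfl fun q _ => ?_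
          rw [← sum_mul, pow_succ', hN]
  have hL0 : (0 : ℝ) < L := by exact_mod_cast hL
  have hP1 : ∑ q, N q = L := by
    have := hP 0
    simp only [pow_zero, sum_const, card_univ, Fintype.card_fin, nsmul_eq_mul, mul_one, zero_add, pow_one] at this
    exact this.symm
  have hS : ∀ j : ℕ, ∑ i : Fin (Fintype.card (Quotient s)), (N ((Fintype.equivFin _).symm i) / L) ^ j =
      (∑ q, N q ^ j) / (L : ℝ) ^ j := by
    intro j
    rw [(Fintype.equivFin (Quotient s)).symm.sum_comp (fun q => (N q / L) ^ j), sum_div]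
    exact sum_congr rfl fun q _ => by rw [div_pow]
  have key := h1 _ (fun i : Fin (Fintype.card (Quotient s)) => N ((Fintype.equivFin _).symm i) / L)
    (fun i => div_nonneg (hN0 _) hL0.le) (by
      have := hS 1
      simp only [pow_one] at this
      rw [this, hP1, div_self hL0.ne'])
  rw [hS 2, hS 4, hS 3, hS 6] at key
  rw [sum_six]
  simp only [inner, sum_add_distrib, sum_sub_distrib, sum_const, card_univ, nsmul_eq_mul, ← mul_sum, ← sum_mul,
    Fintype.card_fin]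
  have e1 : ∑ a, ∑ b, Ind e a b = ∑ q, N q ^ 2 := by
    have := hP 1
    simpa using this
  rw [e1, hP 3, hP 2, hP 5]
  norm_num
  set A := ∑ q, N q ^ 2
  set B := ∑ q, N q ^ 3
  set C := ∑ q, N q ^ 4
  set D := ∑ q, N q ^ 6
  have h6 := mul_nonneg (pow_pos hL0 6).le key
  have : (L : ℝ) ^ 6 * ((1 / 4 - A / (L : ℝ) ^ 2) * (1 - C / (L : ℝ) ^ 4) + B / (L : ℝ) ^ 3 - D / (L : ℝ) ^ 6) =
      (L : ℝ) * (1 / 4 * (L : ℝ) ^ 5) - A * (L : ℝ) ^ 4 - 1 / 4 * C * (L : ℝ) ^ 2 + C * A + B * (L : ℝ) ^ 3 - D := by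
    field_simp
    ring
  rw [this] at h6
  linarith

end Pool.Agent.Helper59.PlzA
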